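import Pool.Agent.helper81.NW.Spec

set_option autoImplicit false

/-!
# Row CLW of project NW (MP_133bfc_co)
-/

namespace Pool.Agent.helper81.NW

open Pool.Agent.helper84.NR
open scoped Classical
open Finset

/-- From a shared vertex of an edge of a face at `x` with a face of the class to a gap. -/
theorem CLW_key (hWDN : WDN_stmt) (hVXW : VXW_stmt) {V F : Type} [Fintype V] [Fintype F]
    (M : PMap V F) (x y : V) (ne : ∀ f, ¬ (OnV M.toCyc f x ∧ OnV M.toCyc f y)) (g0 : F)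
    (ho : oth M x y g0) (v : V) (hv : shv M x y v) (e : Sym2 V) (hve : v ∈ e) (hxe : x ∉ e)
    (hF : onF M x e) (hg : ∃ g, OnE M.toCyc g e ∧ CL M x y g g0) :
    ∃ B k, OnV M.toCyc B y ∧ OnV M.toCyc B v ∧ gp M x y B k ∧
      ∃ g, OnE M.toCyc g s(ww M y B k, ww M y B (k + 1)) ∧ CL M x y g g0 := by
  obtain ⟨B, k, g, hBy, hin, hvk, hnF, hgE, hgC⟩ := hVXW V F M x y ne g0 ho v hv e hve hxe hF hg
  have hgB : g ≠ B := by
    rintro rfl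
    exact ho.2 g hBy hgC
  obtain ⟨k1, -, -, hgp, g', -, hg'E, hg'C⟩ := hWDN V F M x y ne B hBy k hin hnF g hgB hgE
  have hBv : OnV M.toCyc B v := by
    rcases Sym2.mem_iff.1 hvk with h | h
    · rw [h]
      exact ⟨_, rfl⟩
    · rw [h]
      exact ⟨_, rfl⟩
  exact ⟨B, k1, hBy, hBv, hgp, g', hg'E, Eq.trans hg'C hgC⟩

/-- A gap is in `gps`. -/
theorem CLW_mem {V F : Type} [Fintype V] [Fintype F] (M : PMap V F) (x y : V) (B : F) (k : ℕ)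
    (hBy : OnV M.toCyc B y) (hgp : gp M x y B k) : (⟨B, k⟩ : (_ : F) × ℕ) ∈ gps M x y := by
  unfold gps gaps
  rw [mem_sigma]
  refine ⟨?_, ?_⟩
  · unfold FA
    rw [mem_filter]
    obtain ⟨A, hAx, hA⟩ := hgp.1.2.2
    exact ⟨mem_univ _, hBy, A, ww M y B k, hAx, ⟨_, rfl⟩, hA⟩
  · rw [mem_filter, mem_range]
    exact ⟨hgp.1.2.1, hgp⟩

theorem CLW (hIDX : IDX_stmt) (hWW0 : WW0_stmt) (hSYW : SYW_stmt)
    (hWDN : WDN_stmt) (hWUP : WUP_stmt) (hVXW : VXW_stmt) (hAED : AED_stmt) : CLW_stmt := by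
  intro V F _ _ M x y ne g0 ho
  have ne' : ∀ f, ¬ (OnV M.toCyc f y ∧ OnV M.toCyc f x) := fun f h => ne f ⟨h.2, h.1⟩
  obtain ⟨A, i, g, hAx, hin, hnF, hgE, hgC⟩ := hAED V F M x y ne g0 ho
  have hgA : g ≠ A := by
    rintro rfl
    exact ho.1 g hAx hgC
  obtain ⟨-, hCL, -⟩ := hSYW V F M x y
  obtain ⟨i1, hi1, -, hgp1, g1, -, hg1E, hg1C⟩ := hWDN V F M y x ne' A hAx i hin hnF g hgA hgE
  obtain ⟨i2, hi2, hs2, -, g2, -, hg2E, hg2C⟩ := hWUP V F M y x ne' A hAx i hin hnF g hgA hgE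
  have hg1C' : CL M x y g1 g0 := Eq.trans ((hCL g1 g).2 hg1C) hgC
  have hg2C' : CL M x y g2 g0 := Eq.trans ((hCL g2 g).2 hg2C) hgC
  have hs1 := hgp1.1
  obtain ⟨h1i, hi1l, B1', hB1'y, hB1'v⟩ := hs1
  obtain ⟨h2i, hi2l, B2', hB2'y, hB2'v⟩ := hs2
  obtain ⟨hinj, -, -, hadj, -⟩ := hIDX V F M.toCyc A (st M x A)
  obtain ⟨hx0, hxl⟩ := hWW0 V F M x A hAx
  have hnx : ∀ j, 1 ≤ j → j < M.len A → ww M x A j ≠ x := by
    intro j hj1 hj2 h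
    have h3 : M.bd A (st M x A + j) = M.bd A (st M x A + 0) := h.trans hx0.symm
    have h4 := hinj j 0 hj2 (by omega) h3
    omega
  have hA1 : OnV M.toCyc A (ww M x A i1) := ⟨_, rfl⟩
  have hA2 : OnV M.toCyc A (ww M x A i2) := ⟨_, rfl⟩
  have hne : ww M x A i1 ≠ ww M x A i2 := by
    intro h
    have := hinj i1 i2 hi1l hi2l h
    omega
  have hx1 : x ∉ s(ww M x A i1, ww M x A (i1 + 1)) := by
    intro h
    rcases Sym2.mem_iff.1 h with h | h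
    · exact hnx i1 h1i (by omega) h.symm
    · exact hnx (i1 + 1) (by omega) (by omega) h.symm
  have hF1 : onF M x s(ww M x A i1, ww M x A (i1 + 1)) := ⟨A, hAx, st M x A + i1, rfl⟩
  have hx2 : x ∉ s(ww M x A (i2 - 1), ww M x A i2) := by
    intro h
    rcases Sym2.mem_iff.1 h with h | h
    · exact hnx (i2 - 1) (by omega) (by omega) h.symm
    · exact hnx i2 (by omega) (by omega) h.symm
  have hF2 : onF M x s(ww M x A (i2 - 1), ww M x A i2) := by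
    refine ⟨A, hAx, st M x A + (i2 - 1), ?_⟩
    have h3 : st M x A + (i2 - 1) + 1 = st M x A + i2 := by omega
    rw [h3]
    rfl
  obtain ⟨B1, k1, hB1y, hB1v, hk1, hc1⟩ := CLW_key hWDN hVXW M x y ne g0 ho (ww M x A i1)
    ⟨⟨A, hAx, hA1⟩, B1', hB1'y, hB1'v⟩ _ (Sym2.mem_mk_left _ _) hx1 hF1 ⟨g1, hg1E, hg1C'⟩
  obtain ⟨B2, k2, hB2y, hB2v, hk2, hc2⟩ := CLW_key hWDN hVXW M x y ne g0 ho (ww M x A i2)
    ⟨⟨A, hAx, hA2⟩, B2', hB2'y, hB2'v⟩ _ (Sym2.mem_mk_right _ _) hx2 hF2 ⟨g2, hg2E, hg2C'⟩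
  refine ⟨⟨B1, k1⟩, CLW_mem M x y B1 k1 hB1y hk1, ⟨B2, k2⟩, CLW_mem M x y B2 k2 hB2y hk2, ?_,
    hc1, hc2⟩
  intro heq
  obtain ⟨h3, -⟩ := Sigma.mk.inj_iff.1 heq
  subst h3
  have hAB : A ≠ B1 := by
    rintro rfl
    exact ne _ ⟨hAx, hB1y⟩
  have hp := M.poly A B1 hAB _ _ hne hA1 hA2 hB1v hB2v
  rcases hadj i1 i2 (by omega) hi2l hp.1 with h | ⟨h, -⟩
  · have h4 : i = i1 := by omega
    have h5 : i2 = i1 + 1 := h
    subst h4
    subst h5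
    exact hnF ⟨B1, hB1y, hp.2.1⟩
  · omega

end Pool.Agent.helper81.NW
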